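import Pool.Agent.H77.INP.Df
import Pool.Agent.H93.BX.Df
import Pool.Agent.H42.BX.Lgp

/-!
# [H86 BX PBL] MP_b39724_nt: the first input `PBL p` of UBX (H77/INP) from the box lemma BLX (H93/BX)

* `upc`: `ZMod p → ZMod (p ^ (κ + 1))`, multiplication by `p ^ κ`. `fgN`: the filtration `P ≥ N = Nk N 0 ≥ Nk N 1 ≥ ..` as `FG` of H42/BX. `cvL`: the label with the character in `ZMod (p ^ (κ + 1))`.
* `sbl_of`: `BLX` (no fixed words) implies `SBL`. `pbl_of`: BLX for all fields implies `PBL p`.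
-/

set_option autoImplicit false

open scoped NumberField
open IsDedekindDomain
open scoped Classical

noncomputable section

namespace H86.BX

open H38.ML H63.MA H38.BB H38.BG H57.PC H57.BRA H77.WD H77.WE H77.PC3 H35.CF H35.UB H77.S3 H62.BL H77.INP

section chr

variable {p κ : ℕ}

/-- multiplication by `p ^ κ` -/
def upc (p κ : ℕ) (a : ZMod p) : ZMod (p ^ (κ + 1)) := ((a.val * p ^ κ : ℕ) : ZMod (p ^ (κ + 1)))

private theorem upc_val (hp : p.Prime) (a : ZMod p) : (upc p κ a).val = a.val * p ^ κ := by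
  have : NeZero p := ⟨hp.ne_zero⟩
  unfold upc
  rw [ZMod.val_natCast, Nat.mod_eq_of_lt]
  rw [pow_succ, mul_comm (p ^ κ)]
  exact Nat.mul_lt_mul_of_pos_right (ZMod.val_lt a) (Nat.pow_pos hp.pos)

private theorem upc_add (hp : p.Prime) (a b : ZMod p) : upc p κ (a + b) = upc p κ a + upc p κ b := by
  have : NeZero p := ⟨hp.ne_zero⟩
  unfold upc
  rw [← Nat.cast_add, ZMod.natCast_eq_natCast_iff, ← add_mul, pow_succ, mul_comm (p ^ κ) p]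
  refine Nat.ModEq.mul_right' _ ?_
  rw [ZMod.val_add]
  exact Nat.mod_modEq _ _

private theorem upc_inj (hp : p.Prime) {a b : ZMod p} (h : upc p κ a = upc p κ b) : a = b := by
  have : NeZero p := ⟨hp.ne_zero⟩
  have h1 := congrArg ZMod.val h
  rw [upc_val hp, upc_val hp] at h1
  exact ZMod.val_injective p (Nat.eq_of_mul_eq_mul_right (Nat.pow_pos hp.pos) h1)

private theorem upc_ep (hp : p.Prime) (a : ZMod p) : ep (p ^ (κ + 1)) (upc p κ a) = ep p a := by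
  unfold ep
  rw [upc_val hp]
  congr 2
  have h1 : (p : ℂ) ≠ 0 := Nat.cast_ne_zero.2 hp.ne_zero
  push_cast
  rw [pow_succ, mul_comm ((p : ℂ) ^ κ) p]
  exact mul_div_mul_right _ _ (pow_ne_zero _ h1)

end chr

section grp

variable {P : Type} [Group P] {p κ n : ℕ}

/-- the filtration given by `N` -/
def fgN {q : ℕ} (hex : ∀ x : P, x ^ q = 1) (N : Subgroup P) [N.Normal] {n : ℕ} (hn : Nk N (n + 1) = ⊥) :
    H42.BX.FG q n P (P ⧸ N) where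
  f := fN N
  fl := fn_fl N
  bot := hn
  ex := hex
  pi := QuotientGroup.mk' N
  sur := QuotientGroup.mk'_surjective N
  ker x := by
    change ((x : P ⧸ N) = 1) ↔ x ∈ N
    exact QuotientGroup.eq_one_iff x

variable {N : Subgroup P} [N.Normal]

/-- the label with the character of order `p` as a character in `ZMod (p ^ (κ + 1))` -/
def cvL (κ : ℕ) (l : Lt p P N) : H42.BX.Lt (p ^ (κ + 1)) P (P ⧸ N) := ⟨l.g, l.f, fun u => upc p κ (l.χ u)⟩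

private theorem cvL_ok (hp : p.Prime) (hex : ∀ x : P, x ^ p ^ (κ + 1) = 1) (hn : Nk N (n + 1) = ⊥)
    {l : Lt p P N} (h : l.ok n) : (cvL κ l).ok (fgN hex N hn) := by
  obtain ⟨h1, -, h3, h4⟩ := h
  refine ⟨h1, fun u hu v hv => ?_, fun x hx => ?_⟩
  · change upc p κ (l.χ (u * v)) = upc p κ (l.χ u) + upc p κ (l.χ v)
    rw [h3 u hu v hv, upc_add hp]
  · obtain ⟨h5, h6⟩ := h4 x hx
    refine ⟨h5, fun u hu => ?_⟩
    change upc p κ (l.χ (x * u * x⁻¹)) = upc p κ (l.χ u)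
    rw [h6 u hu]

private theorem cvL_bru (l : Fin (n + 2) → Lt p P N) (u : Fin (n + 1) → P) :
    H42.BX.bru (fun k => cvL κ (l k)) u = bru l u := by
  unfold H42.BX.bru bru
  rw [brk_rn]
  rfl

private theorem cvL_upd (l : Fin (n + 2) → Lt p P N) (χ' : P → ZMod p) :
    (fun k => cvL κ (Function.update l 0 (⟨(l 0).g, (l 0).f, χ'⟩ : Lt p P N) k)) =
      Function.update (fun k => cvL κ (l k)) 0 ⟨(cvL κ (l 0)).g, (cvL κ (l 0)).f, fun u => upc p κ (χ' u)⟩ := by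
  funext k
  by_cases hk : k = 0
  · subst hk
    rw [Function.update_self, Function.update_self]
    rfl
  · rw [Function.update_of_ne hk, Function.update_of_ne hk]

/-- the data of the variable primes -/
private theorem pbl_v (hp : p.Prime) (hex : ∀ x : P, x ^ p ^ (κ + 1) = 1) (hn : Nk N (n + 1) = ⊥)
    (l : Fin (n + 2) → Lt p P N)
    (h : ∀ k, (cvL κ (l k)).ok (fgN hex N hn)) (Gk : Fin (n + 2) → P → ℂ) (h1 : ∀ k x, ‖Gk k x‖ ≤ 1)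
    (h2 : ∀ k x, Gk k x ≠ 0 → (x : P ⧸ N) = (l k).f)
    (h3 : ∀ k x, ∀ u ∈ Nk N n, Gk k (x * u) = ep p ((l k).χ u) * Gk k x) :
    (⟨fun k => (l k).g, fun k => H42.BX.lbL (fgN hex N hn) (cvL κ (l k)) (h k), fun k => (l k).f, Gk⟩ :
      Vd n P (P ⧸ N) (H42.BX.Lb (fgN hex N hn))).Ok (fgN hex N hn).lg where
  g k := by
    change (l k).g * ((fgN hex N hn).lg.s (H42.BX.lbL (fgN hex N hn) (cvL κ (l k)) (h k)))⁻¹ ∈ (fgN hex N hn).f 2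
    rw [← QuotientGroup.eq_one_iff, QuotientGroup.mk_mul, QuotientGroup.mk_inv, H42.BX.lg_s]
    exact mul_inv_cancel _
  f k := H42.BX.lbL_fix (fgN hex N hn) (cvL κ (l k)) (h k)
  G := h1
  sup := h2
  eq k u hu x := by
    change u ∈ Nk N n at hu
    change Gk k (u * x) = ep (p ^ (κ + 1)) (if u ∈ Nk N n then upc p κ ((l k).χ u) else 0) * Gk k x
    have h4 : x⁻¹ * u * x ∈ Nk N n := by simpa using (nk_normal N n).conj_mem u hu x⁻¹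
    have h5 : u * x = x * (x⁻¹ * u * x) := by group
    rw [if_pos hu, h5, h3 k x _ h4]
    by_cases h6 : Gk k x = 0
    · rw [h6, mul_zero, mul_zero]
    · have h7 := ((h k).2.2 x (h2 k x h6)).2 _ h4
      have h8 : x * (x⁻¹ * u * x) * x⁻¹ = u := by group
      rw [h8] at h7
      change upc p κ ((l k).χ u) = upc p κ ((l k).χ (x⁻¹ * u * x)) at h7
      rw [h7, upc_ep hp]

end grp

variable {K : Type} [Field K] [NumberField K] {Ω : Type} [Field Ω] [Algebra K Ω]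
  {p : ℕ} {ζ : K} {D : RD0 K p ζ}

/-- the data of the fixed primes -/
private theorem pbl_r {A : GS D Ω} {P : Type} [Group P] {N : Subgroup P} [N.Normal] {n κ : ℕ}
    (hex : ∀ x : P, x ^ p ^ (κ + 1) = 1) (hn : Nk N (n + 1) = ⊥) (L : LDs D Ω)
    {E Zw : Finset (Pl K)} (hZw : ∀ v ∈ Zw, v ∉ D.S0) (X : Bd A P N n) (h1 : E ⊆ X.s)
    (h2 : X.s ⊆ Zw) (h3 : ∀ v, v ∉ X.s → X.g v = 1) (h4 : HonE L E X.s X.φ)
    (h5 : Function.Surjective X.φ) (h6 : hat L A X.φ = (QuotientGroup.mk' N).comp (ev A X.g X.α))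
    (h7 : ∀ v x, ‖X.G v x‖ ≤ 1) (Hj : Empty → P → ℂ) :
    (⟨X.s, X.g, X.α, X.φ, X.G, Hj⟩ : H93.BX.Rd A Empty P (P ⧸ N)).Ok L (fgN hex N hn).lg Zw where
  sub := h2
  out v hv := hZw v (h2 hv)
  one := h3
  hon := by
    have h8 := h4.unz
    rwa [Finset.union_eq_right.2 h1] at h8
  sur := h5
  lab v := by
    have h8 := DFunLike.congr_fun h6 (FreeGroup.of (Sum.inl v))
    rw [hat_inl, MonoidHom.comp_apply] at h8
    unfold ev at h8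
    rw [FreeGroup.lift_apply_of] at h8
    exact h8
  al i := by
    have h8 := DFunLike.congr_fun h6 (FreeGroup.of (Sum.inr i))
    rw [hat_inr, MonoidHom.comp_apply] at h8
    unfold ev at h8
    rw [FreeGroup.lift_apply_of] at h8
    exact h8
  G := h7
  H j := j.elim

/-- the sums are the same -/
private theorem pbl_sm {A : GS D Ω} {P : Type} [Group P] {N : Subgroup P} [N.Normal] {n : ℕ}
    (y : H93.BX.Wy D A Empty) {LB : Type} [MulAction (P ⧸ N) LB]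
    (X : Bd A P N n) (l : Fin (n + 2) → Lt p P N) (la : Fin (n + 2) → LB)
    (Gk : Fin (n + 2) → P → ℂ) (Hj : Empty → P → ℂ) :
    H35.UX.smX X y.wv y.Z l Gk =
      ∑ q ∈ Fintype.piFinset (fun k => BX D y.Z X.s (X.lo k) (X.hi k)),
        H93.BX.Fq y (⟨X.s, X.g, X.α, X.φ, X.G, Hj⟩ : H93.BX.Rd A Empty P (P ⧸ N))
          ⟨fun k => (l k).g, la, fun k => (l k).f, Gk⟩ q *
            ∏ k, (fun (_ : Fin (n + 2)) (_ : Fin (n + 2) → Pl K) => (1 : ℂ)) k q := by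
  unfold H35.UX.smX Bd.bx
  rw [Finset.sum_filter]
  refine Finset.sum_congr rfl fun q hq => ?_
  have h1 : ∀ k, q k ∉ X.s := fun k => by
    have h2 := Fintype.mem_piFinset.1 hq k
    exact (Finset.mem_filter.1 h2).2.2.1
  rw [Finset.prod_const_one, mul_one]
  unfold H93.BX.Fq H62.BL.Adm
  by_cases h2 : Function.Injective q
  · rw [if_pos h2, if_pos ⟨h2, h1⟩]
    rw [show (∏ j : Empty, (⟨X.s, X.g, X.α, X.φ, X.G, Hj⟩ : H93.BX.Rd A Empty P (P ⧸ N)).H j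
      (H93.BX.thq (⟨X.s, X.g, X.α, X.φ, X.G, Hj⟩ : H93.BX.Rd A Empty P (P ⧸ N))
        ⟨fun k => (l k).g, la, fun k => (l k).f, Gk⟩ q (y.wj j))) = 1 from Finset.prod_empty, mul_one]
    rfl
  · rw [if_neg h2, if_neg fun h3 => h2 h3.1]

/-- BLX with the parameter `Z₀` -/
def BLXz (D : RD0 K p ζ) (Ω : Type) [Field Ω] [Algebra K Ω] (A : GS D Ω) (κ m c N : ℕ) (z : K) : Prop :=
  ∀ (C₁ A₁ C' : ℕ) (ε : ℝ), 0 < ε → ∃ Y₀ : ℝ, 3 ≤ Y₀ ∧ ∀ Y : ℝ, Y₀ ≤ Y →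
    ∀ (J : Type) [Fintype J] (y : H93.BX.Wy D A J), Fintype.card J ≤ c → y.Val →
      y.M = H93.BX.Mx (p ^ κ) m → H24.RK.NL (N + 1) z y.L →
      GLp p y.Fr (H93.BX.Mx (p ^ κ) m ^ (2 ^ m)) (C₁ * (3 * m + 4)) C' Y →
      (∀ v ∈ y.Z, v ∉ D.S0) → ∀ Z₀ : ℝ, Z₀ ≤ Y ^ C₁ → (∀ v, D.Gd v → (nm v : ℝ) ≤ Z₀ → v ∈ y.Z) →
    ∀ (n : ℕ) (P Qg Lm : Type) [Group P] [Group Qg] [MulAction Qg Lm] [Finite P] [Fintype Lm]
      (Dg : LG (p ^ κ) n P Qg Lm) (v : Vd n P Qg Lm), n + 1 ≤ m → Nat.card P ≤ m →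
      Nat.card Lm ≤ m → (∀ x : P, x ^ (p ^ κ) = 1) → v.Ok Dg → Lkd Dg v.lam →
    ∀ (ι : Type) (I : Finset ι) (r : ι → H93.BX.Rd A J P Qg)
      (h : ι → Fin (n + 2) → (Fin (n + 2) → Pl K) → ℂ)
      (lo hi : ι → Fin (n + 2) → ℝ), H93.BX.Rf y Dg C₁ Y I r → (∀ i ∈ I, H93.BX.Mis (h i)) →
      (∀ i ∈ I, ∀ k, Real.exp (Real.log Y ^ ε) ≤ lo i k ∧ lo i k ≤ hi i k ∧
        hi i k ≤ 2 * lo i k ∧ hi i k ≤ Z₀) →
      ∑ i ∈ I, (nr (r i).T)⁻¹ * (∏ k, lo i k)⁻¹ *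
        ‖∑ x ∈ Fintype.piFinset (fun k => BX D y.Z (r i).T (lo i k) (hi i k)),
          H93.BX.Fq y (r i) v x * ∏ k, h i k x‖ ≤ Real.log Y ^ (-(A₁ : ℝ))

private theorem pbl_lbX {L : LDs D Ω} (Fr : FR L) {Q : DP K Ω} {A : GS D Ω} (B : SD D Q A) (hp : p.Prime)
    {κ m n k Cg C' : ℕ} {z : K} (hk : H93.BX.Mx (p ^ (κ + 1)) (m * (p ^ (κ + 1)) ^ m) ≤ p ^ k)
    {C₁ A₀ ε Y : ℝ} {c₁ a₁ : ℕ} (hc : C₁ ≤ c₁) (ha : A₀ ≤ a₁) (hY3 : 3 ≤ Y)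
    (hCg : Cg = c₁ * (3 * (m * (p ^ (κ + 1)) ^ m) + 4)) {Zw : Finset (Pl K)}
    {ls : List (Pl K)} {W : Pl K → FW A} {Yw : Fin A.g → FW A}
    (hF : Fx k (n + 1) z (H93.BX.Mx (p ^ (κ + 1)) (m * (p ^ (κ + 1)) ^ m) ^
      (2 ^ (m * (p ^ (κ + 1)) ^ m))) Cg C' C₁ Y Fr B Zw ls W Yw)
    (hB : ∀ (J : Type) [Fintype J] (y : H93.BX.Wy D A J), Fintype.card J ≤ 0 → y.Val →
      y.M = H93.BX.Mx (p ^ (κ + 1)) (m * (p ^ (κ + 1)) ^ m) → H24.RK.NL (n + 1) z y.L →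
      GLp p y.Fr (H93.BX.Mx (p ^ (κ + 1)) (m * (p ^ (κ + 1)) ^ m) ^ (2 ^ (m * (p ^ (κ + 1)) ^ m)))
        (c₁ * (3 * (m * (p ^ (κ + 1)) ^ m) + 4)) C' Y →
      (∀ v ∈ y.Z, v ∉ D.S0) → ∀ Z₀ : ℝ, Z₀ ≤ Y ^ c₁ → (∀ v, D.Gd v → (nm v : ℝ) ≤ Z₀ → v ∈ y.Z) →
    ∀ (n : ℕ) (P Qg Lm : Type) [Group P] [Group Qg] [MulAction Qg Lm] [Finite P] [Fintype Lm]
      (Dg : LG (p ^ (κ + 1)) n P Qg Lm) (v : Vd n P Qg Lm), n + 1 ≤ m * (p ^ (κ + 1)) ^ m →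
      Nat.card P ≤ m * (p ^ (κ + 1)) ^ m →
      Nat.card Lm ≤ m * (p ^ (κ + 1)) ^ m → (∀ x : P, x ^ (p ^ (κ + 1)) = 1) → v.Ok Dg → Lkd Dg v.lam →
    ∀ (ι : Type) (I : Finset ι) (r : ι → H93.BX.Rd A J P Qg)
      (h : ι → Fin (n + 2) → (Fin (n + 2) → Pl K) → ℂ)
      (lo hi : ι → Fin (n + 2) → ℝ), H93.BX.Rf y Dg c₁ Y I r → (∀ i ∈ I, H93.BX.Mis (h i)) →
      (∀ i ∈ I, ∀ k, Real.exp (Real.log Y ^ ε) ≤ lo i k ∧ lo i k ≤ hi i k ∧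
        hi i k ≤ 2 * lo i k ∧ hi i k ≤ Z₀) →
      ∑ i ∈ I, (nr (r i).T)⁻¹ * (∏ k, lo i k)⁻¹ *
        ‖∑ x ∈ Fintype.piFinset (fun k => BX D y.Z (r i).T (lo i k) (hi i k)),
          H93.BX.Fq y (r i) v x * ∏ k, h i k x‖ ≤ Real.log Y ^ (-(a₁ : ℝ)))
    {P : Type} [Group P] [Finite P] (hP : Nat.card P ≤ m) (hκ : ∀ x : P, x ^ (p ^ (κ + 1)) = 1)
    {N : Subgroup P} [N.Normal] {n' : ℕ} (hn : Nk N (n' + 1) = ⊥) (hne : Nk N n' ≠ ⊥)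
    {E : Finset (Pl K)} [NeZero (p ^ (κ + 1))] (l : Fin (n' + 2) → Lt p P N)
    (hl : H42.BX.LkN (fgN hκ N hn) fun i => cvL κ (l i)) :
    H35.UX.BLbX L A W Zw E N n' C₁ A₀ ε Y l := by
  obtain ⟨h, hlk⟩ := hl
  have hY0 : (0 : ℝ) < Y := by linarith
  have hlY : 1 ≤ Real.log Y := by
    rw [Real.le_log_iff_exp_le hY0]
    exact Real.exp_one_lt_three.le.trans hY3
  have hllY : 0 ≤ Real.log (Real.log Y) := Real.log_nonneg hlY
  have hnP := n_lt hn hne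
  have hq : 1 ≤ (p ^ (κ + 1)) ^ m := Nat.one_le_pow _ _ (Nat.pow_pos hp.pos)
  have hm' : m ≤ m * (p ^ (κ + 1)) ^ m := Nat.le_mul_of_pos_right _ hq
  have hYC : Y ^ C₁ ≤ Y ^ c₁ := by
    rw [← Real.rpow_natCast]
    exact Real.rpow_le_rpow_of_exponent_le (by linarith) hc
  have hLC : Real.log Y ^ C₁ ≤ Real.log Y ^ c₁ := by
    rw [← Real.rpow_natCast]
    exact Real.rpow_le_rpow_of_exponent_le hlY hc
  intro Gk hG1 hG2 hG3 ι I X hX1 hX2 hX3 hX4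
  have hval : (⟨L, Fr, H93.BX.Mx (p ^ (κ + 1)) (m * (p ^ (κ + 1)) ^ m), Zw, W, Empty.elim, Empty.elim⟩ :
      H93.BX.Wy D A Empty).Val := by
    refine ⟨fun H _ _ hH hc φ hφ v hv => ?_, fun H _ _ hH hc φ hφ j => j.elim⟩
    have h1 : Nat.card H ≤ p ^ k := le_trans hc hk
    refine ((hF.rel.2.2.1 H ⟨hH, h1, fun x => ?_⟩ φ hφ).1 v hv)
    have : Fact p.Prime := ⟨hp⟩
    obtain ⟨j, hj⟩ := IsPGroup.iff_card.1 hH
    rw [hj] at h1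
    have h2 : j ≤ k := (Nat.pow_le_pow_iff_right hp.one_lt).1 h1
    have h3 : x ^ p ^ j = 1 := by
      rw [← hj]
      exact pow_card_eq_one'
    rw [← Nat.add_sub_of_le h2, pow_add, pow_mul, h3, one_pow]
  have hR : H93.BX.Rf (⟨L, Fr, H93.BX.Mx (p ^ (κ + 1)) (m * (p ^ (κ + 1)) ^ m), Zw, W, Empty.elim, Empty.elim⟩ :
      H93.BX.Wy D A Empty) (fgN hκ N hn).lg c₁ Y I
      (fun i => (⟨(X i).s, (X i).g, (X i).α, (X i).φ, (X i).G, fun j => j.elim⟩ :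
        H93.BX.Rd A Empty P (P ⧸ N))) := {
    ok := fun i hi => pbl_r hκ hn L hF.out (X i) (hX1 i hi).1 (hX1 i hi).2.1 (hX2 i hi).1
      (hX2 i hi).2.1 (hX2 i hi).2.2.1 (hX2 i hi).2.2.2.1 (hX2 i hi).2.2.2.2 _
    nr := fun i hi => (hX1 i hi).2.2.1.trans hYC
    card := fun i hi => (hX1 i hi).2.2.2.trans (mul_le_mul_of_nonneg_right hc hllY)
    mul := fun s => (hX4 s).trans hLC }
  have hcl : Nat.card (H42.BX.Lb (fgN hκ N hn)) ≤ m * (p ^ (κ + 1)) ^ m :=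
    H42.BX.lb_card.trans (Nat.mul_le_mul hP (Nat.pow_le_pow_right (Nat.pow_pos hp.pos) hP))
  have hmain := hB Empty
    ⟨L, Fr, H93.BX.Mx (p ^ (κ + 1)) (m * (p ^ (κ + 1)) ^ m), Zw, W, Empty.elim, Empty.elim⟩
    (le_of_eq Fintype.card_empty) hval rfl hF.nl (by
      have h1 := hF.gl
      rw [hCg] at h1
      exact h1) hF.out (Y ^ C₁) hYC hF.all n' P (P ⧸ N)
    (H42.BX.Lb (fgN hκ N hn)) (fgN hκ N hn).lg
    ⟨fun i => (l i).g, fun i => H42.BX.lbL (fgN hκ N hn) (cvL κ (l i)) (h i), fun i => (l i).f, Gk⟩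
    (by omega) (hP.trans hm') hcl hκ (pbl_v hp hκ hn l h Gk hG1 hG2 hG3) hlk ι I
    (fun i => (⟨(X i).s, (X i).g, (X i).α, (X i).φ, (X i).G, fun j => j.elim⟩ :
        H93.BX.Rd A Empty P (P ⧸ N))) (fun _ _ _ => 1) (fun i => (X i).lo) (fun i => (X i).hi) hR
    (fun i _ => ⟨fun _ _ => norm_one.le, fun _ _ _ => rfl⟩) (fun i hi j => hX3 i hi j)
  have hfin : Real.log Y ^ (-(a₁ : ℝ)) ≤ Real.log Y ^ (-A₀) :=
    Real.rpow_le_rpow_of_exponent_le hlY (by linarith)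
  refine le_trans (le_of_eq ?_) (hmain.trans hfin)
  refine Finset.sum_congr rfl fun i _ => ?_
  rw [pbl_sm (⟨L, Fr, H93.BX.Mx (p ^ (κ + 1)) (m * (p ^ (κ + 1)) ^ m), Zw, W, Empty.elim, Empty.elim⟩ :
      H93.BX.Wy D A Empty) (X i) l (fun i => H42.BX.lbL (fgN hκ N hn) (cvL κ (l i)) (h i)) Gk fun j => j.elim]

/-- `SBL` from the box lemma BLX -/
theorem sbl_of (hp : p.Prime) {κ m n k : ℕ} {z : K}
    (hk : H93.BX.Mx (p ^ κ) (m * (p ^ κ) ^ m) ≤ p ^ k)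
    (hB : ∀ A : GS D Ω, BLXz D Ω A κ (m * (p ^ κ) ^ m) 0 n z) :
    Inp D Ω k (n + 1) z (SBL D Ω κ m) := by
  intro A Q B C₁ A₀ ε hε
  obtain ⟨a₁, ha₁⟩ := exists_nat_ge A₀
  obtain ⟨c₁, hc⟩ := exists_nat_ge C₁
  refine ⟨H93.BX.Mx (p ^ κ) (m * (p ^ κ) ^ m) ^ (2 ^ (m * (p ^ κ) ^ m)),
    c₁ * (3 * (m * (p ^ κ) ^ m) + 4), fun C' => ?_⟩
  obtain ⟨Y₁, hY₁3, hY₁⟩ := hB A c₁ a₁ C' ε hε
  refine ⟨Y₁, hY₁3, ?_⟩
  intro Y hY L Fr Zw ls W Yw hF P _ _ hP hκ N _ n' hn hN E hE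
  have hY3 : 3 ≤ Y := hY₁3.trans hY
  by_cases hne : Nk N n' = ⊥
  · refine ⟨fun _ => False, ?_, fun l _ h => h.elim⟩
    rintro l χ' hok hok' ⟨u, hu⟩
    exfalso
    have h1 := bru_mem l (fun k => (hok k).1) u
    rw [hne, Subgroup.mem_bot] at h1
    have h2 := (hok 0).2.2.1 1 (one_mem _) 1 (one_mem _)
    have h3 := hok'.2.2.1 1 (one_mem _) 1 (one_mem _)
    change χ' (1 * 1) = χ' 1 + χ' 1 at h3
    rw [one_mul, left_eq_add] at h2 h3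
    rw [h1, h2, h3] at hu
    exact hu rfl
  · obtain ⟨κ', rfl⟩ : ∃ κ', κ = κ' + 1 := by
      refine ⟨κ - 1, ?_⟩
      by_contra h
      have h0 : κ = 0 := by omega
      subst h0
      refine hne ((Subgroup.eq_bot_iff_forall _).2 fun x _ => ?_)
      have := hκ x
      rwa [pow_zero, pow_one] at this
    have : NeZero (p ^ (κ' + 1)) := ⟨(Nat.pow_pos hp.pos).ne'⟩
    refine ⟨fun l => H42.BX.LkN (fgN hκ N hn) fun i => cvL κ' (l i), ?_, fun l _ hl =>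
      pbl_lbX Fr B hp hk hc ha₁ hY3 rfl hF (hY₁ Y hY) hP hκ hn hne l hl⟩
    rintro l χ' hok hok' ⟨u, hu⟩
    change H42.BX.LkN (fgN hκ N hn) (fun i => cvL κ' (l i)) ∨ H42.BX.LkN (fgN hκ N hn)
      (fun i => cvL κ' (Function.update l 0 (⟨(l 0).g, (l 0).f, χ'⟩ : Lt p P N) i))
    rw [cvL_upd]
    exact H42.BX.lkd_pair (fgN hκ N hn) (fun i => cvL κ' (l i)) (fun u => upc p κ' (χ' u))
      (fun i => cvL_ok hp hκ hn (hok i)) (cvL_ok hp hκ hn hok') ⟨u, fun h => hu (by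
        rw [cvL_bru] at h
        exact upc_inj hp h)⟩

/-- THE FIRST INPUT from BLX for all fields with enough roots of unity -/
theorem pbl_of {p : ℕ} (hp : p.Prime)
    (h : ∀ κ m c : ℕ, ∃ N₀ : ℕ, ∀ N : ℕ, N₀ ≤ N → ∀ (K : IntermediateField ℚ QBar) [NumberField K]
      (ζ : K) (_ : IsPrimitiveRoot ζ p) (z : K) (_ : IsPrimitiveRoot z (p ^ (N + 1)))
      (_ : z ^ p ^ N = ζ) (D : RD K p ζ) (A : GS D.toRD0 QBar), BLXz D.toRD0 QBar A κ m c N z) :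
    PBL p := by
  intro κ m
  obtain ⟨k₀, hk₀⟩ : ∃ k₀, k₀ = H93.BX.Mx (p ^ κ) (m * (p ^ κ) ^ m) := ⟨_, rfl⟩
  refine ⟨k₀, fun k hk => ?_⟩
  obtain ⟨N₀, hN₀⟩ := h κ (m * (p ^ κ) ^ m) 0
  refine ⟨N₀, fun n hn K _ ζ hζ z hz hzζ D => ?_⟩
  refine sbl_of hp ?_ fun A => hN₀ n hn K ζ hζ z hz hzζ D A
  rw [← hk₀]
  calc k₀ ≤ k := hk
    _ ≤ 2 ^ k := Nat.lt_two_pow_self.le
    _ ≤ p ^ k := Nat.pow_le_pow_left hp.two_le k

end H86.BX
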